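import Mathlib

/-!
Rotors of plane graphs and rotor flipping (Tutte; Read and Tutte).

The closed disc `D` of the definition is taken to be the closed unit disc of `ℂ`, and plane
embeddings are straight-line embeddings (this only makes an existence statement stronger).
-/

namespace Pool.Agent.Work.MP_366529_co

/-- `p` is a straight-line plane embedding of the graph `G`: distinct vertices are placed at
distinct points, the edge `x y` is the segment from `p x` to `p y`, a vertex lies on an edge only
if it is an end of this edge, and any common point of two distinct edges is a vertex (hence a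
common end of the two edges). -/
structure IsPlaneEmbedding {V : Type} (G : SimpleGraph V) (p : V → ℂ) : Prop where
  injective : Function.Injective p
  vertex_edge : ∀ x y z, G.Adj x y → p z ∈ segment ℝ (p x) (p y) → z = x ∨ z = y
  edge_edge : ∀ x y z w, G.Adj x y → G.Adj z w → s(x, y) ≠ s(z, w) →
    ∀ q, q ∈ segment ℝ (p x) (p y) → q ∈ segment ℝ (p z) (p w) → ∃ u, q = p u

/-- The subgraph `R` is a rotor of order `n` of the plane graph `(G, p)`, with vertices of
attachment `v 0, …, v (n - 1)` (indices modulo `n`) in this cyclic order on the boundary of the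
closed unit disc `D`. -/
structure IsRotor {V : Type} (G : SimpleGraph V) (p : V → ℂ) (R : G.Subgraph) {n : ℕ}
    (v : ZMod n → V) : Prop where
  /-- `p` is a plane embedding of `G`. -/
  embedding : IsPlaneEmbedding G p
  /-- The `v i` are exactly the vertices of attachment of `R`: the vertices incident both to an
  edge of `R` and to an edge of `G` outside `R`. -/
  attachment : ∀ x, (∃ i, v i = x) ↔ (∃ y, R.Adj x y) ∧ ∃ y, G.Adj x y ∧ ¬ R.Adj x y
  /-- `R` lies in `D` (so do its edges, `D` being convex). -/
  inside : ∀ x ∈ R.verts, ‖p x‖ ≤ 1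
  /-- The vertices outside `R` lie outside `D`. -/
  outside_vertex : ∀ x, x ∉ R.verts → 1 < ‖p x‖
  /-- The edges outside `R` do not enter the interior of `D`. -/
  outside_edge : ∀ x y, G.Adj x y → ¬ R.Adj x y → ∀ q ∈ segment ℝ (p x) (p y), 1 ≤ ‖q‖
  /-- The vertices of `G` on the boundary of `D` are exactly the `v i`. -/
  boundary_vertex : ∀ x, ‖p x‖ = 1 ↔ ∃ i, v i = x
  /-- An edge of `G` meets the boundary of `D` in points `p (v i)` only. -/
  boundary_edge : ∀ x y, G.Adj x y → ∀ q ∈ segment ℝ (p x) (p y), ‖q‖ = 1 → ∃ i, q = p (v i)
  /-- The rotation of `D` by the angle `2 π / n` carries the embedded `R` onto itself, inducing an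
  automorphism `θ` of `R` with `θ (v i) = v (i + 1)`. -/
  symmetry : ∃ θ : R.coe ≃g R.coe,
    (∀ x : R.verts, p (θ x) = Complex.exp (2 * Real.pi * Complex.I / n) * p x) ∧
    ∀ i (h : v i ∈ R.verts), (θ ⟨v i, h⟩ : V) = v (i + 1)

open Classical in
/-- The vertex map exchanging `v i` and `v (-i)` and fixing all other vertices. -/
noncomputable def mirror {V : Type} {n : ℕ} (v : ZMod n → V) (x : V) : V :=
  if h : ∃ i, v i = x then v (-h.choose) else x

/-- The graph obtained from `G` by flipping `R`: the edges of `R` are deleted and a copy of `R` is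
glued in, in which the copy of `v i` is identified with `v (-i)` (the copy of any other vertex
of `R` replaces this vertex). -/
def flip {V : Type} (G : SimpleGraph V) (R : G.Subgraph) {n : ℕ} (v : ZMod n → V) :
    SimpleGraph V where
  Adj x y := (G.Adj x y ∧ ¬ R.Adj x y) ∨ R.Adj (mirror v x) (mirror v y)
  symm := by
    refine ⟨fun x y h => ?_⟩
    rcases h with ⟨h1, h2⟩ | h
    · exact Or.inl ⟨h1.symm, fun h3 => h2 h3.symm⟩
    · exact Or.inr h.symm
  loopless := by
    refine ⟨fun x h => ?_⟩
    rcases h with ⟨h1, -⟩ | h
    · exact h1.ne rfl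
    · exact h.ne rfl

end Pool.Agent.Work.MP_366529_co
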