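import Mathlib
import Pool.Agent.Work.MP_366529_co.Defs

/-!
The graph `G`, the rotor `R` of order 6 and the colourings.

Vertices `0..5` are the attachments `v i`, `6 + i` is `a i`, `12 + i` is `b i`, `18 + i` is `c i`;
`24..29` are the vertices outside the disc.
-/

namespace Pool.Agent.Work.MP_366529_co

/-- The edges of the rotor. -/
def edgesR : List (Fin 30 × Fin 30) :=
  [(12, 13), (6, 12), (6, 17), (6, 18), (6, 1), (18, 0), (18, 1),
   (13, 14), (7, 13), (7, 12), (7, 19), (7, 2), (19, 1), (19, 2),
   (14, 15), (8, 14), (8, 13), (8, 20), (8, 3), (20, 2), (20, 3),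
   (15, 16), (9, 15), (9, 14), (9, 21), (9, 4), (21, 3), (21, 4),
   (16, 17), (10, 16), (10, 15), (10, 22), (10, 5), (22, 4), (22, 5),
   (17, 12), (11, 17), (11, 16), (11, 23), (11, 0), (23, 5), (23, 0)]

/-- The edges outside the rotor. -/
def edgesH : List (Fin 30 × Fin 30) :=
  [(1, 24), (1, 25), (24, 25), (24, 26), (25, 26), (26, 0), (26, 2), (26, 27), (26, 28),
   (27, 28), (27, 5), (28, 5), (29, 3), (29, 4)]

/-- The plane graph. -/
def G : SimpleGraph (Fin 30) where
  Adj x y := (x, y) ∈ edgesR ++ edgesH ∨ (y, x) ∈ edgesR ++ edgesH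
  symm := ⟨fun _ _ h => h.symm⟩
  loopless := ⟨by decide⟩

instance : DecidableRel G.Adj := fun x y =>
  inferInstanceAs (Decidable ((x, y) ∈ edgesR ++ edgesH ∨ (y, x) ∈ edgesR ++ edgesH))

/-- The rotor. -/
def R : G.Subgraph where
  verts := {x | (x : ℕ) < 24}
  Adj x y := (x, y) ∈ edgesR ∨ (y, x) ∈ edgesR
  adj_sub := by
    intro x y h
    rcases h with h | h
    · exact Or.inl (List.mem_append_left _ h)
    · exact Or.inr (List.mem_append_left _ h)
  edge_vert := by
    intro x y h
    have h1 : ∀ e ∈ edgesR, (e.1 : ℕ) < 24 ∧ (e.2 : ℕ) < 24 := by decide +kernel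
    rcases h with h | h
    · exact (h1 _ h).1
    · exact (h1 _ h).2
  symm := ⟨fun _ _ h => h.symm⟩

/-- The attachments. -/
def att (i : ZMod 6) : Fin 30 := ⟨i.val, by have := ZMod.val_lt i; omega⟩

/-- table for the mirror map -/
def mir : Fin 30 → Fin 30 :=
  ![0, 5, 4, 3, 2, 1, 6, 7, 8, 9, 10, 11, 12, 13, 14, 15, 16, 17, 18, 19, 20, 21, 22, 23, 24, 25,
    26, 27, 28, 29]

lemma att_injective : Function.Injective att := by decide

lemma mirror_att (x : Fin 30) : mirror att x = mir x := by
  unfold mirror
  split_ifs with h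
  · have h1 := h.choose_spec
    have h2 : ∀ i : ZMod 6, att (-i) = mir (att i) := by decide
    rw [h2, h1]
  · have h2 : ∀ x : Fin 30, (¬ ∃ i : ZMod 6, att i = x) → mir x = x := by decide
    exact (h2 x h).symm

/-! ### `G` is not 3-colourable -/

/-- Backtracking search. `offs` lists, for each vertex in turn, the offsets of its earlier
neighbours; `cols` holds the colours already chosen, the latest first. -/
def ext : List (List ℕ) → List ℕ → Bool
  | [], _ => true
  | (o :: rest), cols =>
      (List.range 3).any fun c => o.all (fun d => cols.getD d 3 != c) && ext rest (c :: cols)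

lemma ext_complete (f : ℕ → ℕ) (hf : ∀ i, f i < 3) : ∀ (l : List (List ℕ)) (n : ℕ),
    (∀ k < l.length, ∀ d ∈ l.getD k [], d < n + k ∧ f (n + k) ≠ f (n + k - 1 - d)) →
    ext l (((List.range n).map f).reverse) = true := by
  intro l
  induction l with
  | nil => intro n _; rfl
  | cons o rest ih =>
    intro n h
    rw [ext, List.any_eq_true]
    refine ⟨f n, List.mem_range.mpr (hf n), ?_⟩
    rw [Bool.and_eq_true]
    constructor
    · rw [List.all_eq_true]
      intro d hd
      have h1 := h 0 (by simp) d (by simpa using hd)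
      rw [Nat.add_zero] at h1
      have h2 : (((List.range n).map f).reverse).getD d 3 = f (n - 1 - d) := by
        rw [List.getD_eq_getElem _ _ (by simp; exact h1.1), List.getElem_reverse]
        simp
      rw [h2]
      simp only [bne_iff_ne, ne_eq]
      exact fun h3 => h1.2 h3.symm
    · have h1 := ih (n + 1) (by
        intro k hk d hd
        have h2 := h (k + 1) (by simpa using hk) d (by simpa using hd)
        have e : n + (k + 1) = n + 1 + k := by ring
        rw [e] at h2
        exact h2)
      have e : ((List.range (n + 1)).map f).reverse = f n :: ((List.range n).map f).reverse := by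
        rw [List.range_succ, List.map_append, List.reverse_append]
        rfl
      rw [e] at h1
      exact h1

/-- search order -/
def order : List (Fin 30) :=
  [0, 26, 1, 2, 5, 24, 25, 27, 28, 18, 6, 19, 7, 23, 11, 12, 17, 13, 3, 20, 8, 14, 4, 21, 9, 15,
   22, 10, 16, 29]

/-- offsets of earlier neighbours -/
def offs : List (List ℕ) :=
  [[], [0], [], [1], [], [3, 2], [4, 3, 0], [5, 2], [6, 3, 0], [8, 6], [7, 0], [8, 7], [8, 0],
   [12, 8], [13, 0], [4, 2], [5, 1, 0], [4, 1], [], [15, 0], [2, 1, 0], [3, 0], [], [4, 0],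
   [2, 1, 0], [3, 0], [21, 3], [22, 1, 0], [13, 11, 2, 0], [10, 6]]

lemma offs_spec : ∀ k < offs.length, ∀ d ∈ offs.getD k [], d < k ∧
    G.Adj (order.getD k 0) (order.getD (k - 1 - d) 0) := by decide

lemma ext_offs : ext offs [] = false := by decide +kernel

theorem not_colorable : IsEmpty (G.Coloring (Fin 3)) := by
  refine ⟨fun C => ?_⟩
  have h := ext_complete (fun i => (C (order.getD i 0) : ℕ)) (fun i => (C (order.getD i 0)).2)
    offs 0 (by
      intro k hk d hd
      have h1 := offs_spec k hk d hd
      rw [Nat.zero_add]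
      refine ⟨h1.1, ?_⟩
      intro h2
      exact C.valid h1.2 (Fin.ext h2))
  simp only [List.range_zero, List.map_nil, List.reverse_nil] at h
  rw [ext_offs] at h
  exact absurd h (by simp)

/-! ### The flipped graph is 3-colourable -/

/-- a 3-colouring of the flipped graph -/
def col : Fin 30 → Fin 3 :=
  ![0, 1, 2, 0, 1, 1, 0, 2, 1, 0, 2, 1, 1, 0, 2, 1, 0, 2, 2, 0, 2, 1, 0, 2, 0, 2, 1, 0, 2, 2]

lemma col_R : ∀ x y : Fin 30, ((mir x, mir y) ∈ edgesR ∨ (mir y, mir x) ∈ edgesR) →
    col x ≠ col y := by
  decide +kernel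

lemma col_H : ∀ e ∈ edgesH, col e.1 ≠ col e.2 := by decide +kernel

/-- the colouring as an element of the type of colourings -/
def colouring : (flip G R att).Coloring (Fin 3) :=
  SimpleGraph.Coloring.mk col (by
    intro x y h
    rcases h with ⟨h1, h2⟩ | h
    · rcases h1 with h1 | h1
      · rcases List.mem_append.mp h1 with h3 | h3
        · exact absurd (Or.inl h3) h2
        · exact col_H _ h3
      · rcases List.mem_append.mp h1 with h3 | h3
        · exact absurd (Or.inr h3) h2
        · exact (col_H _ h3).symm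
    · rw [mirror_att, mirror_att] at h
      exact col_R x y h)

theorem card_eq_zero : Nat.card (G.Coloring (Fin 3)) = 0 :=
  Nat.card_eq_zero.mpr (Or.inl not_colorable)

theorem card_pos : 0 < Nat.card ((flip G R att).Coloring (Fin 3)) := by
  have : Finite ((flip G R att).Coloring (Fin 3)) :=
    Finite.of_injective (fun C => (C : Fin 30 → Fin 3)) DFunLike.coe_injective
  exact Nat.card_pos_iff.mpr ⟨⟨colouring⟩, inferInstance⟩

end Pool.Agent.Work.MP_366529_co
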