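import Mathlib
import Pool.Agent.Work.MP_366529_co.Graph

/-!
The straight-line plane embedding of `G`.
-/

namespace Pool.Agent.Work.MP_366529_co

/-- first lattice coordinate (scaled by 12) -/
def X : Fin 30 → ℤ :=
  ![12, 0, -12, -12, 0, 12, 5, -1, -6, -5, 1, 6, 0, -3, -3, 0, 3, 3, 6, -2, -8, -6, 2, 8, 4, -7,
    1, 37, 20, -11]

/-- second lattice coordinate (scaled by 12) -/
def Y : Fin 30 → ℤ :=
  ![0, 12, 12, 0, -12, -12, 1, 6, 5, -1, -6, -5, 3, 3, 0, -3, -3, 0, 2, 8, 6, -2, -8, -6, 13, 16,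
    41, -2, -4, -14]

/-- sixth root of unity -/
noncomputable def w : ℂ := Complex.exp (2 * Real.pi * Complex.I / (6 : ℕ))

lemma w_eq : w = ((1 / 2 : ℝ) : ℂ) + ((Real.sqrt 3 / 2 : ℝ) : ℂ) * Complex.I := by
  unfold w
  have e : 2 * (Real.pi : ℂ) * Complex.I / (6 : ℕ) = ((Real.pi / 3 : ℝ) : ℂ) * Complex.I := by
    push_cast
    ring
  rw [e, Complex.exp_mul_I, ← Complex.ofReal_cos, ← Complex.ofReal_sin, Real.cos_pi_div_three,
    Real.sin_pi_div_three]

lemma w_re : w.re = 1 / 2 := by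
  rw [w_eq]; simp

lemma w_im : w.im = Real.sqrt 3 / 2 := by
  rw [w_eq]; simp

/-- positions -/
noncomputable def p (x : Fin 30) : ℂ := ((X x : ℝ) + (Y x : ℝ) * w) / 12

/-- first coordinate of a complex number -/
noncomputable def cx (q : ℂ) : ℝ := 12 * q.re - 4 * Real.sqrt 3 * q.im

/-- second coordinate of a complex number -/
noncomputable def cy (q : ℂ) : ℝ := 8 * Real.sqrt 3 * q.im

lemma sq3 : Real.sqrt 3 * Real.sqrt 3 = 3 := Real.mul_self_sqrt (by norm_num)

lemma p_re (x : Fin 30) : (p x).re = ((X x : ℝ) + (Y x : ℝ) / 2) / 12 := by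
  unfold p
  have : (((X x : ℝ) : ℂ) + ((Y x : ℝ) : ℂ) * w) / 12 =
      (((X x : ℝ) : ℂ) + ((Y x : ℝ) : ℂ) * w) / ((12 : ℝ) : ℂ) := by norm_num
  rw [this, Complex.div_ofReal_re, Complex.add_re, Complex.re_ofReal_mul, w_re, Complex.ofReal_re]
  ring

lemma p_im (x : Fin 30) : (p x).im = ((Y x : ℝ) * (Real.sqrt 3 / 2)) / 12 := by
  unfold p
  have : (((X x : ℝ) : ℂ) + ((Y x : ℝ) : ℂ) * w) / 12 =
      (((X x : ℝ) : ℂ) + ((Y x : ℝ) : ℂ) * w) / ((12 : ℝ) : ℂ) := by norm_num
  rw [this, Complex.div_ofReal_im, Complex.add_im, Complex.im_ofReal_mul, w_im, Complex.ofReal_im]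
  ring

lemma cx_p (x : Fin 30) : cx (p x) = X x := by
  unfold cx
  rw [p_re, p_im]
  have := sq3
  linear_combination (-(Y x : ℝ) / 6) * this

lemma cy_p (x : Fin 30) : cy (p x) = Y x := by
  unfold cy
  rw [p_im]
  have := sq3
  linear_combination ((Y x : ℝ) / 3) * this

lemma ext_c {q r : ℂ} (h1 : cx q = cx r) (h2 : cy q = cy r) : q = r := by
  have h3 : Real.sqrt 3 ≠ 0 := by positivity
  unfold cy at h2
  unfold cx at h1
  have him : q.im = r.im := by
    have : 8 * Real.sqrt 3 ≠ 0 := by positivity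
    exact mul_left_cancel₀ this h2
  rw [him] at h1
  have hre : q.re = r.re := by linarith
  exact Complex.ext hre him

lemma norm_sq (q : ℂ) : 144 * ‖q‖ ^ 2 = cx q ^ 2 + cx q * cy q + cy q ^ 2 := by
  rw [← Complex.normSq_eq_norm_sq, Complex.normSq_apply]
  unfold cx cy
  have := sq3
  linear_combination (-(48 : ℝ) * q.im ^ 2) * this

lemma seg {a b q : ℂ} (h : q ∈ segment ℝ a b) : ∃ s t : ℝ, 0 ≤ s ∧ 0 ≤ t ∧ s + t = 1 ∧
    cx q = s * cx a + t * cx b ∧ cy q = s * cy a + t * cy b := by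
  obtain ⟨s, t, hs, ht, hst, rfl⟩ := h
  refine ⟨s, t, hs, ht, hst, ?_, ?_⟩
  · unfold cx
    simp only [Complex.add_re, Complex.add_im, Complex.smul_re, Complex.smul_im, smul_eq_mul]
    ring
  · unfold cy
    simp only [Complex.add_im, Complex.smul_im, smul_eq_mul]
    ring

lemma segp {x y : Fin 30} {q : ℂ} (h : q ∈ segment ℝ (p x) (p y)) : ∃ s t : ℝ, 0 ≤ s ∧ 0 ≤ t ∧
    s + t = 1 ∧ cx q = s * X x + t * X y ∧ cy q = s * Y x + t * Y y := by
  obtain ⟨s, t, hs, ht, hst, h1, h2⟩ := seg h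
  rw [cx_p, cx_p] at h1
  rw [cy_p, cy_p] at h2
  exact ⟨s, t, hs, ht, hst, h1, h2⟩

/-- orientation of a triple of vertices -/
def ori (x y z : Fin 30) : ℤ := (X y - X x) * (Y z - Y x) - (Y y - Y x) * (X z - X x)

/-- orientation with a real point -/
noncomputable def oriR (x y : Fin 30) (q : ℂ) : ℝ :=
  ((X y : ℝ) - X x) * (cy q - Y x) - ((Y y : ℝ) - Y x) * (cx q - X x)

lemma oriR_self {x y : Fin 30} {q : ℂ} (h : q ∈ segment ℝ (p x) (p y)) : oriR x y q = 0 := by
  obtain ⟨s, t, hs, ht, hst, h1, h2⟩ := segp h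
  unfold oriR
  rw [h1, h2]
  have : s = 1 - t := by linarith
  rw [this]
  ring

lemma oriR_seg {x y z u : Fin 30} {q : ℂ} {s t : ℝ} (hst : s + t = 1)
    (h1 : cx q = s * X z + t * X u) (h2 : cy q = s * Y z + t * Y u) :
    oriR x y q = s * ori x y z + t * ori x y u := by
  unfold oriR ori
  rw [h1, h2]
  have : s = 1 - t := by linarith
  rw [this]
  push_cast
  ring

/-- Both `z` and `u` on the same side of the line through `x` and `y`. -/
lemma sameSide {x y z u : Fin 30} (h : 0 < ori x y z * ori x y u) {q : ℂ}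
    (h1 : q ∈ segment ℝ (p x) (p y)) (h2 : q ∈ segment ℝ (p z) (p u)) : False := by
  have h3 := oriR_self h1
  obtain ⟨s, t, hs, ht, hst, h4, h5⟩ := segp h2
  rw [oriR_seg hst h4 h5] at h3
  rcases (mul_pos_iff.mp h) with ⟨ha, hb⟩ | ⟨ha, hb⟩
  · have ha' : (0 : ℝ) < ori x y z := by exact_mod_cast ha
    have hb' : (0 : ℝ) < ori x y u := by exact_mod_cast hb
    rcases hs.lt_or_eq with hs' | hs'
    · have := mul_pos hs' ha'
      have := mul_nonneg ht hb'.le
      linarith
    · have ht1 : t = 1 := by linarith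
      rw [← hs', ht1] at h3
      linarith
  · have ha' : (ori x y z : ℝ) < 0 := by exact_mod_cast ha
    have hb' : (ori x y u : ℝ) < 0 := by exact_mod_cast hb
    rcases hs.lt_or_eq with hs' | hs'
    · have := mul_neg_of_pos_of_neg hs' ha'
      have := mul_nonpos_of_nonneg_of_nonpos ht hb'.le
      linarith
    · have ht1 : t = 1 := by linarith
      rw [← hs', ht1] at h3
      linarith

/-- Two non-collinear segments with a common end `z`, the end `z` lying on the line `x y`. -/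
lemma common_end {x y z u : Fin 30} (hz : ori x y z = 0) (h : ori x y u ≠ 0) {q : ℂ}
    (h1 : q ∈ segment ℝ (p x) (p y)) (h2 : q ∈ segment ℝ (p z) (p u)) : q = p z := by
  have h3 := oriR_self h1
  obtain ⟨s, t, hs, ht, hst, h4, h5⟩ := segp h2
  rw [oriR_seg hst h4 h5, hz] at h3
  have h' : (ori x y u : ℝ) ≠ 0 := by exact_mod_cast h
  have ht0 : t = 0 := by
    have h6 : t * (ori x y u : ℝ) = 0 := by
      have : s * ((0 : ℤ) : ℝ) = 0 := by simp
      linarith
    exact (mul_eq_zero.mp h6).resolve_right h'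
  have hs1 : s = 1 := by linarith
  rw [ht0, hs1] at h4 h5
  apply ext_c
  · rw [h4, cx_p]; ring
  · rw [h5, cy_p]; ring

lemma ori_left (x y : Fin 30) : ori x y x = 0 := by unfold ori; ring
lemma ori_right (x y : Fin 30) : ori x y y = 0 := by unfold ori; ring

/-- certificate that two edges meet properly -/
def Good (e f : Fin 30 × Fin 30) : Prop :=
  (e = f) ∨ (e.1 = f.1 ∧ ori e.1 e.2 f.2 ≠ 0) ∨ (e.1 = f.2 ∧ ori e.1 e.2 f.1 ≠ 0) ∨
    (e.2 = f.1 ∧ ori e.1 e.2 f.2 ≠ 0) ∨ (e.2 = f.2 ∧ ori e.1 e.2 f.1 ≠ 0) ∨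
    0 < ori e.1 e.2 f.1 * ori e.1 e.2 f.2 ∨ 0 < ori f.1 f.2 e.1 * ori f.1 f.2 e.2

instance (e f : Fin 30 × Fin 30) : Decidable (Good e f) := by unfold Good; infer_instance

lemma all_good : ∀ e ∈ edgesR ++ edgesH, ∀ f ∈ edgesR ++ edgesH, Good e f := by decide +kernel

lemma vertex_good : ∀ e ∈ edgesR ++ edgesH, ∀ z : Fin 30, z = e.1 ∨ z = e.2 ∨ ori e.1 e.2 z ≠ 0 := by
  decide +kernel

lemma good_meet {e f : Fin 30 × Fin 30} (h : Good e f) (hne : e ≠ f) {q : ℂ}
    (h1 : q ∈ segment ℝ (p e.1) (p e.2)) (h2 : q ∈ segment ℝ (p f.1) (p f.2)) : ∃ u, q = p u := by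
  rcases h with h | ⟨h, h'⟩ | ⟨h, h'⟩ | ⟨h, h'⟩ | ⟨h, h'⟩ | h | h
  · exact absurd h hne
  · exact ⟨f.1, common_end (by rw [← h]; exact ori_left _ _) h' h1 h2⟩
  · exact ⟨f.2, common_end (by rw [← h]; exact ori_left _ _) h' h1 (by rwa [segment_symm] at h2)⟩
  · exact ⟨f.1, common_end (by rw [← h]; exact ori_right _ _) h' h1 h2⟩
  · exact ⟨f.2, common_end (by rw [← h]; exact ori_right _ _) h' h1 (by rwa [segment_symm] at h2)⟩
  · exact (sameSide h h1 h2).elim
  · exact (sameSide h h2 h1).elim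

lemma p_injective : Function.Injective p := by
  intro x y h
  have h1 : X x = X y := by
    have := cx_p x
    rw [h, cx_p y] at this
    exact_mod_cast this.symm
  have h2 : Y x = Y y := by
    have := cy_p x
    rw [h, cy_p y] at this
    exact_mod_cast this.symm
  have h3 : ∀ x y : Fin 30, X x = X y → Y x = Y y → x = y := by decide +kernel
  exact h3 x y h1 h2

theorem embedding : IsPlaneEmbedding G p where
  injective := p_injective
  vertex_edge := by
    intro x y z hxy hz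
    have key : ∀ x y, (x, y) ∈ edgesR ++ edgesH → p z ∈ segment ℝ (p x) (p y) → z = x ∨ z = y := by
      intro x y hxy hz
      rcases vertex_good _ hxy z with h | h | h
      · exact Or.inl h
      · exact Or.inr h
      · exfalso
        have h3 := oriR_self hz
        unfold oriR at h3
        rw [cx_p, cy_p] at h3
        apply h
        unfold ori
        exact_mod_cast h3
    rcases hxy with h | h
    · exact key x y h hz
    · rw [segment_symm] at hz
      exact (key y x h hz).symm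
  edge_edge := by
    intro x y z u hxy hzu hne q h1 h2
    rcases hxy with hxy | hxy <;> rcases hzu with hzu | hzu
    · exact good_meet (all_good _ hxy _ hzu) (fun h => hne (by
        rw [Prod.mk.injEq] at h
        rw [h.1, h.2])) h1 h2
    · rw [segment_symm] at h2
      exact good_meet (all_good _ hxy _ hzu) (fun h => hne (by
        rw [Prod.mk.injEq] at h
        rw [h.1, h.2, Sym2.eq_swap])) h1 h2
    · rw [segment_symm] at h1
      exact good_meet (all_good _ hxy _ hzu) (fun h => hne (by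
        rw [Prod.mk.injEq] at h
        rw [h.1, h.2, Sym2.eq_swap])) h1 h2
    · rw [segment_symm] at h1 h2
      exact good_meet (all_good _ hxy _ hzu) (fun h => hne (by
        rw [Prod.mk.injEq] at h
        rw [h.1, h.2])) h1 h2

/-- norm form -/
def nf (a b : ℤ) : ℤ := a ^ 2 + a * b + b ^ 2

lemma norm_p (x : Fin 30) : 144 * ‖p x‖ ^ 2 = (nf (X x) (Y x) : ℝ) := by
  rw [norm_sq, cx_p, cy_p]
  unfold nf
  push_cast
  ring

lemma norm_le_one_iff (q : ℂ) : ‖q‖ ≤ 1 ↔ 144 * ‖q‖ ^ 2 ≤ 144 := by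
  constructor
  · intro h
    nlinarith [norm_nonneg q]
  · intro h
    nlinarith [norm_nonneg q]

lemma one_le_norm_iff (q : ℂ) : 1 ≤ ‖q‖ ↔ 144 ≤ 144 * ‖q‖ ^ 2 := by
  constructor
  · intro h
    nlinarith [norm_nonneg q]
  · intro h
    nlinarith [norm_nonneg q]

lemma one_lt_norm_iff (q : ℂ) : 1 < ‖q‖ ↔ 144 < 144 * ‖q‖ ^ 2 := by
  constructor
  · intro h
    nlinarith [norm_nonneg q]
  · intro h
    nlinarith [norm_nonneg q]

lemma norm_eq_one_iff (q : ℂ) : ‖q‖ = 1 ↔ 144 * ‖q‖ ^ 2 = 144 := by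
  constructor
  · intro h
    rw [h]; norm_num
  · intro h
    nlinarith [norm_nonneg q]

lemma nf_inside : ∀ x : Fin 30, (x : ℕ) < 24 → nf (X x) (Y x) ≤ 144 := by decide +kernel
lemma nf_outside : ∀ x : Fin 30, ¬ (x : ℕ) < 24 → 144 < nf (X x) (Y x) := by decide +kernel
lemma nf_circle : ∀ x : Fin 30, nf (X x) (Y x) = 144 ↔ ∃ i : ZMod 6, att i = x := by decide +kernel
lemma nf_edge : ∀ e ∈ edgesR, 0 < nf (X e.1 - X e.2) (Y e.1 - Y e.2) := by decide +kernel
lemma edge_in : ∀ e ∈ edgesR, (e.1 : ℕ) < 24 ∧ (e.2 : ℕ) < 24 := by decide +kernel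

/-- support functionals of the six tangents -/
def tang (i : Fin 6) (a b : ℤ) : ℤ :=
  ![2, 1, -1, -2, -1, 1] i * a + ![1, 2, 1, -1, -2, -1] i * b

lemma tang_good : ∀ e ∈ edgesH, ∃ i : Fin 6, 24 ≤ tang i (X e.1) (Y e.1) ∧
    24 ≤ tang i (X e.2) (Y e.2) := by decide +kernel

lemma edge_inside {x y : Fin 30} (h : (x, y) ∈ edgesR) {q : ℂ}
    (hq : q ∈ segment ℝ (p x) (p y)) (h1 : ‖q‖ = 1) : ∃ i : ZMod 6, q = p (att i) := by
  obtain ⟨s, t, hs, ht, hst, hx, hy⟩ := segp hq
  rw [norm_eq_one_iff, norm_sq, hx, hy] at h1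
  have hin := edge_in _ h
  have ha : (nf (X x) (Y x) : ℝ) ≤ 144 := by exact_mod_cast nf_inside x hin.1
  have hb : (nf (X y) (Y y) : ℝ) ≤ 144 := by exact_mod_cast nf_inside y hin.2
  have hc : (0 : ℝ) < (nf (X x - X y) (Y x - Y y) : ℝ) := by exact_mod_cast nf_edge _ h
  have hid : s * (144 - (nf (X x) (Y x) : ℝ)) + t * (144 - (nf (X y) (Y y) : ℝ)) +
      s * t * (nf (X x - X y) (Y x - Y y) : ℝ) = 0 := by
    unfold nf
    push_cast
    have e : s = 1 - t := by linarith
    rw [e] at h1 ⊢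
    linear_combination -h1
  have h2 : 0 ≤ s * (144 - (nf (X x) (Y x) : ℝ)) := mul_nonneg hs (by linarith)
  have h3 : 0 ≤ t * (144 - (nf (X y) (Y y) : ℝ)) := mul_nonneg ht (by linarith)
  have h4 : 0 ≤ s * t * (nf (X x - X y) (Y x - Y y) : ℝ) := mul_nonneg (mul_nonneg hs ht) hc.le
  have h5 : s * t * (nf (X x - X y) (Y x - Y y) : ℝ) = 0 := by linarith
  have h6 : s * t = 0 := (mul_eq_zero.mp h5).resolve_right hc.ne'
  rcases mul_eq_zero.mp h6 with hs0 | ht0
  · -- q = p y
    have ht1 : t = 1 := by linarith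
    have h7 : (nf (X y) (Y y) : ℝ) = 144 := by
      rw [hs0, ht1] at hid
      linarith
    obtain ⟨i, hi⟩ := (nf_circle y).mp (by exact_mod_cast h7)
    refine ⟨i, ?_⟩
    rw [hi]
    apply ext_c
    · rw [hx, cx_p, hs0, ht1]; ring
    · rw [hy, cy_p, hs0, ht1]; ring
  · have hs1 : s = 1 := by linarith
    have h7 : (nf (X x) (Y x) : ℝ) = 144 := by
      rw [hs1, ht0] at hid
      linarith
    obtain ⟨i, hi⟩ := (nf_circle x).mp (by exact_mod_cast h7)
    refine ⟨i, ?_⟩
    rw [hi]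
    apply ext_c
    · rw [hx, cx_p, hs1, ht0]; ring
    · rw [hy, cy_p, hs1, ht0]; ring

lemma tangent_bound (i : Fin 6) (a b : ℝ)
    (h : 24 ≤ ((![2, 1, -1, -2, -1, 1] : Fin 6 → ℤ) i : ℝ) * a +
      ((![1, 2, 1, -1, -2, -1] : Fin 6 → ℤ) i : ℝ) * b) :
    144 ≤ a ^ 2 + a * b + b ^ 2 ∧ (a ^ 2 + a * b + b ^ 2 = 144 →
      a = (![12, 0, -12, -12, 0, 12] : Fin 6 → ℤ) i ∧
      b = (![0, 12, 12, 0, -12, -12] : Fin 6 → ℤ) i) := by
  have key : ∀ u v : ℝ, 24 ≤ u → 144 ≤ (u ^ 2 + 3 * v ^ 2) / 4 ∧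
      ((u ^ 2 + 3 * v ^ 2) / 4 = 144 → u = 24 ∧ v = 0) := by
    intro u v hu
    constructor
    · nlinarith [sq_nonneg v]
    · intro h
      have h1 : v ^ 2 = 0 := by nlinarith [sq_nonneg v]
      have h2 : v = 0 := by simpa using h1
      refine ⟨?_, h2⟩
      rw [h2] at h
      nlinarith
  fin_cases i
  · simp at h
    have := key (2 * a + b) b (by linarith)
    simp
    constructor
    · nlinarith [this.1]
    · intro h1
      have h2 := this.2 (by linarith)
      constructor <;> linarith [h2.1, h2.2]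
  · simp at h
    have := key (a + 2 * b) a (by linarith)
    simp
    constructor
    · nlinarith [this.1]
    · intro h1
      have h2 := this.2 (by linarith)
      constructor <;> linarith [h2.1, h2.2]
  · simp at h
    have := key (-a + b) (a + b) (by linarith)
    simp
    constructor
    · nlinarith [this.1]
    · intro h1
      have h2 := this.2 (by linarith)
      constructor <;> linarith [h2.1, h2.2]
  · simp at h
    have := key (-2 * a - b) b (by linarith)
    simp
    constructor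
    · nlinarith [this.1]
    · intro h1
      have h2 := this.2 (by linarith)
      constructor <;> linarith [h2.1, h2.2]
  · simp at h
    have := key (-a - 2 * b) a (by linarith)
    simp
    constructor
    · nlinarith [this.1]
    · intro h1
      have h2 := this.2 (by linarith)
      constructor <;> linarith [h2.1, h2.2]
  · simp at h
    have := key (a - b) (a + b) (by linarith)
    simp
    constructor
    · nlinarith [this.1]
    · intro h1
      have h2 := this.2 (by linarith)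
      constructor <;> linarith [h2.1, h2.2]

lemma att_coord : ∀ i : Fin 6, X (att i) = (![12, 0, -12, -12, 0, 12] : Fin 6 → ℤ) i ∧
    Y (att i) = (![0, 12, 12, 0, -12, -12] : Fin 6 → ℤ) i := by decide

lemma edge_outside {x y : Fin 30} (h : (x, y) ∈ edgesH) {q : ℂ}
    (hq : q ∈ segment ℝ (p x) (p y)) : 1 ≤ ‖q‖ ∧ (‖q‖ = 1 → ∃ i : ZMod 6, q = p (att i)) := by
  obtain ⟨s, t, hs, ht, hst, hx, hy⟩ := segp hq
  obtain ⟨i, h1, h2⟩ := tang_good _ h
  have h1' : (24 : ℝ) ≤ (tang i (X x) (Y x) : ℤ) := by exact_mod_cast h1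
  have h2' : (24 : ℝ) ≤ (tang i (X y) (Y y) : ℤ) := by exact_mod_cast h2
  have h3 : (24 : ℝ) ≤ ((![2, 1, -1, -2, -1, 1] : Fin 6 → ℤ) i : ℝ) * cx q +
      ((![1, 2, 1, -1, -2, -1] : Fin 6 → ℤ) i : ℝ) * cy q := by
    rw [hx, hy]
    have e : ((![2, 1, -1, -2, -1, 1] : Fin 6 → ℤ) i : ℝ) * (s * X x + t * X y) +
      ((![1, 2, 1, -1, -2, -1] : Fin 6 → ℤ) i : ℝ) * (s * Y x + t * Y y) =
      s * ((tang i (X x) (Y x) : ℤ) : ℝ) + t * ((tang i (X y) (Y y) : ℤ) : ℝ) := by
      unfold tang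
      push_cast
      ring
    rw [e]
    have e1 := mul_le_mul_of_nonneg_left h1' hs
    have e2 := mul_le_mul_of_nonneg_left h2' ht
    have e3 : s * 24 + t * 24 = 24 := by linarith
    linarith
  have h4 := tangent_bound i (cx q) (cy q) h3
  constructor
  · rw [one_le_norm_iff, norm_sq]
    exact h4.1
  · intro h5
    rw [norm_eq_one_iff, norm_sq] at h5
    have h6 := h4.2 h5
    have h7 := att_coord i
    refine ⟨i, ext_c ?_ ?_⟩
    · rw [cx_p, h6.1, h7.1]
    · rw [cy_p, h6.2, h7.2]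

/-- the rotation on vertices -/
def rotT : Fin 30 → Fin 30 :=
  ![1, 2, 3, 4, 5, 0, 7, 8, 9, 10, 11, 6, 13, 14, 15, 16, 17, 12, 19, 20, 21, 22, 23, 18, 24, 25,
    26, 27, 28, 29]

/-- the inverse rotation on vertices -/
def rotI : Fin 30 → Fin 30 :=
  ![5, 0, 1, 2, 3, 4, 11, 6, 7, 8, 9, 10, 17, 12, 13, 14, 15, 16, 23, 18, 19, 20, 21, 22, 24, 25,
    26, 27, 28, 29]

/-- the rotation as a permutation -/
def rotPerm : Equiv.Perm (Fin 30) where
  toFun := rotT
  invFun := rotI
  left_inv := by decide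
  right_inv := by decide

lemma rot_mem : ∀ x : Fin 30, ((rotT x : Fin 30) : ℕ) < 24 ↔ (x : ℕ) < 24 := by decide

lemma rot_adj : ∀ x y : Fin 30, ((rotT x, rotT y) ∈ edgesR ∨ (rotT y, rotT x) ∈ edgesR) ↔
    ((x, y) ∈ edgesR ∨ (y, x) ∈ edgesR) := by decide +kernel

lemma rot_coord : ∀ x : Fin 30, (x : ℕ) < 24 → X (rotT x) = - Y x ∧ Y (rotT x) = X x + Y x := by
  decide +kernel

lemma rot_att : ∀ i : ZMod 6, rotT (att i) = att (i + 1) := by decide

lemma w_sq : w * w = w - 1 := by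
  rw [w_eq]
  have h : ((Real.sqrt 3 : ℝ) : ℂ) * ((Real.sqrt 3 : ℝ) : ℂ) = 3 := by
    rw [← Complex.ofReal_mul, sq3]; norm_num
  push_cast
  have hI : Complex.I * Complex.I = -1 := Complex.I_mul_I
  linear_combination (Complex.I * Complex.I / 4) * h + (3 / 4 : ℂ) * hI

lemma p_rot (x : Fin 30) (hx : (x : ℕ) < 24) : p (rotT x) = w * p x := by
  unfold p
  obtain ⟨h1, h2⟩ := rot_coord x hx
  rw [h1, h2]
  push_cast
  linear_combination (-(Y x : ℂ) / 12) * w_sq

lemma attach1 : ∀ x : Fin 30, (∃ i : ZMod 6, att i = x) ↔ (x : ℕ) < 6 := by decide +kernel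

lemma attach2 : ∀ x : Fin 30, (∃ y : Fin 30, ((x, y) ∈ edgesR ∨ (y, x) ∈ edgesR)) ↔
    (x : ℕ) < 24 := by decide +kernel

lemma attach3 : ∀ x : Fin 30, (∃ y : Fin 30, (((x, y) ∈ edgesR ++ edgesH ∨
    (y, x) ∈ edgesR ++ edgesH) ∧ ¬ ((x, y) ∈ edgesR ∨ (y, x) ∈ edgesR))) ↔
    ((x : ℕ) < 6 ∨ 24 ≤ (x : ℕ)) := by decide +kernel

theorem isRotor : IsRotor G p R att where
  embedding := embedding
  attachment := by
    intro x
    have h1 := attach1 x
    have h2 := attach2 x
    have h3 := attach3 x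
    constructor
    · intro h
      have h4 := h1.mp h
      exact ⟨h2.mpr (by omega), h3.mpr (Or.inl h4)⟩
    · rintro ⟨ha, hb⟩
      have h4 := h2.mp ha
      have h5 := h3.mp hb
      exact h1.mpr (by omega)
  inside := by
    intro x hx
    rw [norm_le_one_iff, norm_p]
    exact_mod_cast nf_inside x hx
  outside_vertex := by
    intro x hx
    rw [one_lt_norm_iff, norm_p]
    exact_mod_cast nf_outside x hx
  outside_edge := by
    intro x y hxy hR q hq
    rcases hxy with h | h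
    · rcases List.mem_append.mp h with h | h
      · exact absurd (Or.inl h) hR
      · exact (edge_outside h hq).1
    · rcases List.mem_append.mp h with h | h
      · exact absurd (Or.inr h) hR
      · rw [segment_symm] at hq
        exact (edge_outside h hq).1
  boundary_vertex := by
    intro x
    rw [norm_eq_one_iff, norm_p, ← nf_circle]
    norm_cast
  boundary_edge := by
    intro x y hxy q hq h1
    rcases hxy with h | h
    · rcases List.mem_append.mp h with h | h
      · exact edge_inside h hq h1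
      · exact (edge_outside h hq).2 h1
    · rw [segment_symm] at hq
      rcases List.mem_append.mp h with h | h
      · exact edge_inside h hq h1
      · exact (edge_outside h hq).2 h1
  symmetry := by
    refine ⟨⟨rotPerm.subtypePerm (p := fun x : Fin 30 => (x : ℕ) < 24) (fun x => rot_mem x), ?_⟩, ?_, ?_⟩
    · intro a b
      exact rot_adj a b
    · intro x
      exact p_rot x x.2
    · intro i h
      exact rot_att i

end Pool.Agent.Work.MP_366529_co
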